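import Pool.Agent.Helper21.CU.St

set_option autoImplicit false

open Finset

namespace Pool.Agent.Helper39.CU

open Pool.Agent.Helper21.CU

theorem geo (r : ℝ) (h0 : 0 ≤ r) (h1 : r ≤ 1 / 2) (n : ℕ) :
    ∑ j ∈ Icc 1 n, r ^ j ≤ 2 * r - 2 * r ^ (n + 1) := by
  induction n with
  | zero => simp
  | succ n ih =>
    rw [Finset.sum_Icc_succ_top (by omega)]
    have h2 : 0 ≤ r ^ (n + 1) := pow_nonneg h0 _
    have h3 : r ^ (n + 1 + 1) = r ^ (n + 1) * r := pow_succ _ _
    nlinarith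

theorem hCNP (hCNT : StCNT) (hCRT : StCRT) (hPP : StPP) : StCNP := by
  intro k hk
  obtain ⟨C, hC, hCs⟩ := hCNT k hk
  have hk0 : k ≠ 0 := by
    rintro rfl
    exact hk 0 (by norm_num)
  refine ⟨6 * C, by positivity, ?_⟩
  intro p hp hpk x
  have hp2 : 2 ≤ p := hp.two_le
  have hp0 : 0 < p := hp.pos
  have hpR : (2 : ℝ) ≤ p := by exact_mod_cast hp2
  -- the map
  set φ : ℕ → (_ : ℕ) × ℕ := fun s => ⟨s.factorization p, s / p ^ s.factorization p⟩ with hφ
  set G : (_ : ℕ) × ℕ → ℝ := fun t => 3 * ((R k t.2).card : ℝ) with hG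
  set A := (Icc 1 x).filter (fun s : ℕ => p ∣ s) with hA
  set B : Finset ((_ : ℕ) × ℕ) := (Icc 1 x).sigma (fun j => Icc 1 (x / p ^ j)) with hB
  have hmap : ∀ s ∈ A, φ s ∈ B := by
    intro s hs
    rw [hA, mem_filter, mem_Icc] at hs
    obtain ⟨⟨h1, h2⟩, h3⟩ := hs
    have hs0 : s ≠ 0 := by omega
    rw [hB, mem_sigma, mem_Icc, mem_Icc]
    have h4 : p ^ s.factorization p ≤ s := Nat.ordProj_le p hs0
    refine ⟨⟨hp.factorization_pos_of_dvd hs0 h3, ?_⟩, ?_, Nat.div_le_div_right h2⟩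
    · have h5 : s.factorization p < p ^ s.factorization p := Nat.lt_pow_self hp.one_lt
      change s.factorization p ≤ x
      omega
    · exact Nat.div_pos h4 (pow_pos hp0 _)
  have hinj : Set.InjOn φ (A : Set ℕ) := by
    intro s hs t ht hst
    have e1 : s.factorization p = t.factorization p := congrArg Sigma.fst hst
    have e2 : s / p ^ s.factorization p = t / p ^ t.factorization p := by
      have := congrArg (fun u : (_ : ℕ) × ℕ => u.2) hst
      exact this
    calc s = p ^ s.factorization p * (s / p ^ s.factorization p) :=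
          (Nat.ordProj_mul_ordCompl_eq_self s p).symm
      _ = p ^ t.factorization p * (t / p ^ t.factorization p) := by rw [e2, e1]
      _ = t := Nat.ordProj_mul_ordCompl_eq_self t p
  have hle : ∀ s ∈ A, ((R k s).card : ℝ) ≤ G (φ s) := by
    intro s hs
    rw [hA, mem_filter, mem_Icc] at hs
    obtain ⟨⟨h1, h2⟩, h3⟩ := hs
    have hs0 : s ≠ 0 := by omega
    have h4 : p ^ s.factorization p ≤ s := Nat.ordProj_le p hs0
    have hc : Nat.Coprime (p ^ s.factorization p) (s / p ^ s.factorization p) :=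
      Nat.Coprime.pow_left _ (Nat.coprime_ordCompl hp hs0)
    have h5 := (hCRT k (p ^ s.factorization p) (s / p ^ s.factorization p)
      (Nat.one_le_pow _ _ hp0) (Nat.div_pos h4 (pow_pos hp0 _)) hc).1
    rw [Nat.ordProj_mul_ordCompl_eq_self] at h5
    obtain ⟨h6, h7⟩ := (hPP k hk0 p (s.factorization p) hp
      (hp.factorization_pos_of_dvd hs0 h3)).1 hpk
    rw [h5]
    change (((R k (p ^ s.factorization p)).card * (R k (s / p ^ s.factorization p)).card : ℕ) : ℝ) ≤
      3 * ((R k (s / p ^ s.factorization p)).card : ℝ)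
    push_cast
    have h8 : ((R k (p ^ s.factorization p)).card : ℝ) ≤ 3 := by exact_mod_cast h6.trans h7
    exact mul_le_mul_of_nonneg_right h8 (Nat.cast_nonneg _)
  have hGn : ∀ t, 0 ≤ G t := fun t => by
    change 0 ≤ 3 * ((R k t.2).card : ℝ)
    positivity
  calc ∑ s ∈ A, ((R k s).card : ℝ) ≤ ∑ s ∈ A, G (φ s) := sum_le_sum hle
    _ = ∑ t ∈ A.image φ, G t := (sum_image hinj).symm
    _ ≤ ∑ t ∈ B, G t := sum_le_sum_of_subset_of_nonneg (image_subset_iff.2 hmap)
        fun t _ _ => hGn t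
    _ = ∑ j ∈ Icc 1 x, ∑ s' ∈ Icc 1 (x / p ^ j), 3 * ((R k s').card : ℝ) := by
        rw [hB, sum_sigma]
    _ ≤ ∑ j ∈ Icc 1 x, 3 * C * x * (1 / (p : ℝ)) ^ j := by
        refine sum_le_sum fun j _ => ?_
        rw [← mul_sum]
        have h1 := hCs (x / p ^ j)
        have h2 : ((x / p ^ j : ℕ) : ℝ) ≤ x / (p : ℝ) ^ j := by
          have := @Nat.cast_div_le ℝ _ _ _ x (p ^ j)
          rwa [Nat.cast_pow] at this
        have h3 : C * ((x / p ^ j : ℕ) : ℝ) ≤ C * (x / (p : ℝ) ^ j) :=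
          mul_le_mul_of_nonneg_left h2 hC.le
        have h4 : (1 / (p : ℝ)) ^ j = 1 / (p : ℝ) ^ j := by rw [div_pow, one_pow]
        rw [h4]
        calc 3 * ∑ s' ∈ Icc 1 (x / p ^ j), ((R k s').card : ℝ) ≤ 3 * (C * (x / (p : ℝ) ^ j)) := by
              linarith
          _ = 3 * C * x * (1 / (p : ℝ) ^ j) := by ring
    _ = 3 * C * x * ∑ j ∈ Icc 1 x, (1 / (p : ℝ)) ^ j := by rw [mul_sum]
    _ ≤ 3 * C * x * (2 * (1 / (p : ℝ))) := by
        refine mul_le_mul_of_nonneg_left ?_ (by positivity)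
        have h1 : 0 ≤ 1 / (p : ℝ) := by positivity
        have h2 : 1 / (p : ℝ) ≤ 1 / 2 := one_div_le_one_div_of_le (by norm_num) hpR
        have h3 := geo (1 / (p : ℝ)) h1 h2 x
        have h4 : 0 ≤ (1 / (p : ℝ)) ^ (x + 1) := pow_nonneg h1 _
        linarith
    _ = 6 * C * x / p := by ring

end Pool.Agent.Helper39.CU
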